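import Mathlib

set_option autoImplicit false

open Cardinal Set

namespace Pool.Agent.Results.MP_6359ae_lc.EqualPicks

/-- The well ordered set of order type the initial ordinal of the successor of `l`. -/
abbrev Ord (l : Cardinal.{0}) : Type := (Order.succ l).ord.ToType

theorem mk_Ord (l : Cardinal.{0}) : #(Ord l) = Order.succ l := by
  simp [Ord]

theorem mk_Iio_le {l : Cardinal.{0}} (y : Ord l) : #(Iio y) ≤ l := by
  have h : #(Iio y) < Order.succ l := by
    simpa using Cardinal.mk_Iio_lt y (by simp)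
  exact Order.lt_succ_iff.mp h

theorem mk_Iic_le {l : Cardinal.{0}} (hl : ℵ₀ ≤ l) (y : Ord l) : #(Iic y) ≤ l := by
  have h : Iic y = insert y (Iio y) := by
    ext z
    simp [le_iff_lt_or_eq, or_comm]
  rw [h]
  refine (mk_insert_le).trans ?_
  calc #(Iio y) + 1 ≤ l + l := add_le_add (mk_Iio_le y) (one_le_aleph0.trans hl)
    _ = l := add_eq_self hl

/-- In a well order of type the successor cardinal every small set is bounded. -/
theorem bdd_of_small {l : Cardinal.{0}} (hl : ℵ₀ ≤ l) (S : Set (Ord l)) (hS : #S ≤ l) :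
    ∃ d : Ord l, ∀ s ∈ S, s < d := by
  by_contra hcon
  push Not at hcon
  have hcov : (univ : Set (Ord l)) ⊆ ⋃ s : S, Iic (s : Ord l) := by
    intro d _
    obtain ⟨s, hs, hd⟩ := hcon d
    exact mem_iUnion.mpr ⟨⟨s, hs⟩, hd⟩
  have h1 : Order.succ l ≤ l := by
    calc Order.succ l = #(univ : Set (Ord l)) := by rw [mk_univ, mk_Ord]
      _ ≤ #(⋃ s : S, Iic (s : Ord l)) := mk_le_mk_of_subset hcov
      _ ≤ Cardinal.sum fun s : S => #(Iic (s : Ord l)) := mk_iUnion_le_sum_mk
      _ ≤ Cardinal.sum fun _ : S => l := sum_le_sum _ _ fun s => mk_Iic_le hl _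
      _ = #S * l := by simp
      _ ≤ l * l := mul_le_mul' hS le_rfl
      _ = l := mul_eq_self hl
  exact absurd h1 (not_le.mpr (Order.lt_succ l))

/-- Codes: a bound and a small table of pairs (restricted branch, value). -/
abbrev Code (l : Cardinal.{0}) (C : Type) : Type :=
  Σ d : Ord l, (C → ((Iio d → Bool) × Ord l))

theorem mk_Code {l : Cardinal.{0}} (hl : ℵ₀ ≤ l) (h2 : (2 : Cardinal.{0}) ^ l = Order.succ l)
    (C : Type) (hC : #C = l) : #(Code l C) ≤ Order.succ l := by
  have hinf : ℵ₀ ≤ Order.succ l := hl.trans (Order.le_succ l)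
  have hone : ∀ d : Ord l, #(C → ((Iio d → Bool) × Ord l)) ≤ Order.succ l := by
    intro d
    have hb : #(Iio d → Bool) ≤ Order.succ l := by
      refine le_trans ?_ h2.le
      have h3 : #(Iio d → Bool) = (2 : Cardinal.{0}) ^ #(Iio d) := by simp
      rw [h3]
      exact power_le_power_left two_ne_zero (mk_Iio_le d)
    calc #(C → ((Iio d → Bool) × Ord l)) = (#(Iio d → Bool) * #(Ord l)) ^ l := by
          simp [hC]
      _ ≤ (Order.succ l * Order.succ l) ^ l := by
          refine Cardinal.power_le_power_right ?_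
          exact mul_le_mul' hb (mk_Ord l).le
      _ = (Order.succ l) ^ l := by rw [mul_eq_self hinf]
      _ = (2 ^ l) ^ l := by rw [h2]
      _ = 2 ^ (l * l) := by rw [power_mul]
      _ = Order.succ l := by rw [mul_eq_self hl, h2]
  calc #(Code l C) = Cardinal.sum fun d : Ord l => #(C → ((Iio d → Bool) × Ord l)) := mk_sigma _
    _ ≤ Cardinal.sum fun _ : Ord l => Order.succ l := sum_le_sum _ _ hone
    _ = #(Ord l) * Order.succ l := by simp
    _ = Order.succ l := by rw [mk_Ord, mul_eq_self hinf]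

open Classical in
/-- The function coded by a code. -/
noncomputable def decode {l : Cardinal.{0}} {C Q : Type} [Inhabited (Ord l)] (r : Q → Ord l → Bool)
    (k : Code l C) (i : Q) : Ord l :=
  if h : ∃ c : C, (k.2 c).1 = fun z : Iio k.1 => r i z then (k.2 h.choose).2 else default

theorem decode_cover {l : Cardinal.{0}} (hl : ℵ₀ ≤ l) {C Q : Type} [Inhabited (Ord l)]
    (hC : #C = l) (r : Q → Ord l → Bool) (hr : Function.Injective r) (R : Set Q) (hR : #R = l)
    (c : Q → Ord l) : ∃ k : Code l C, ∀ i ∈ R, decode r k i = c i := by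
  classical
  let dd : R × R → Ord l := fun p =>
    if h : ∃ z, r p.1 z ≠ r p.2 z then h.choose else default
  obtain ⟨d, hd⟩ := bdd_of_small hl (range dd) (by
    refine mk_range_le.trans ?_
    simp [hR, mul_eq_self hl])
  obtain ⟨e⟩ : Nonempty (C ≃ R) := Cardinal.eq.mp (hC.trans hR.symm)
  refine ⟨⟨d, fun a => (fun z => r (e a) z, c (e a))⟩, ?_⟩
  intro i hi
  have hex : ∃ a : C, ((fun a : C => ((fun z : Iio d => r (e a) z), c (e a))) a).1
      = fun z : Iio d => r i z := ⟨e.symm ⟨i, hi⟩, by simp⟩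
  unfold decode
  rw [dif_pos hex]
  have hs := hex.choose_spec
  set a := hex.choose with ha
  have hei : ((e a : R) : Q) = i := by
    by_contra hne
    have hrne : r (e a) ≠ r i := fun h => hne (hr h)
    have hz : ∃ z, r (e a) z ≠ r i z := Function.ne_iff.mp hrne
    have hdd : dd (e a, ⟨i, hi⟩) = hz.choose := by
      simp only [dd]
      rw [dif_pos hz]
    have hlt : hz.choose < d := hdd ▸ hd _ ⟨_, rfl⟩
    have := congrFun hs ⟨hz.choose, hlt⟩
    exact hz.choose_spec this
  simp only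
  rw [hei]

theorem forward {l : Cardinal.{0}} (hl : ℵ₀ ≤ l) (q : Cardinal.{0})
    (h : ∃ (X P Q : Type), #X = Order.succ l ∧ #P = Order.succ l ∧ #Q = q ∧
      ∃ f : Q → X → P, (∀ i : Q, Function.Surjective (f i)) ∧
        ∀ R : Set Q, #R = l → ∀ c : Q → P, #{x : X // ∀ i ∈ R, f i x ≠ c i} < Order.succ l) :
    ∃ (X P Q : Type), #X = Order.succ l ∧ #P = l ∧ #Q = q ∧
      ∃ f : Q → X → P,
        ∀ R : Set Q, #R = l → ∀ c : P, #{x : X // ∀ i ∈ R, f i x ≠ c} < Order.succ l := by
  classical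
  obtain ⟨X, P, Q, hX, hP, hQ, f, -, hf⟩ := h
  have hlP : #(l.out) ≤ #P := by
    rw [mk_out, hP]
    exact Order.le_succ l
  obtain ⟨j⟩ := (Cardinal.le_def _ _).mp hlP
  have : Nonempty l.out := by
    rw [← mk_ne_zero_iff, mk_out]
    exact (aleph0_pos.trans_le hl).ne'
  have hinv : Function.LeftInverse (Function.invFun j) j := Function.leftInverse_invFun j.injective
  refine ⟨X, l.out, Q, hX, mk_out l, hQ, fun i x => Function.invFun j (f i x), ?_⟩
  intro R hR c
  refine lt_of_le_of_lt ?_ (hf R hR (fun _ => j c))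
  refine mk_subtype_mono ?_
  intro x hx i hi heq
  exact hx i hi (by simp only [heq]; exact hinv c)

theorem small_q {l : Cardinal.{0}} (hl : ℵ₀ ≤ l) {X C Q : Type} (hX : #X = Order.succ l)
    (hC : #C = l) (f : Q → X → C)
    (hf : ∀ R : Set Q, #R = l → ∀ c : C, #{x : X // ∀ i ∈ R, f i x ≠ c} < Order.succ l) :
    #Q ≤ 2 ^ (Order.succ l) := by
  by_contra hcon
  rw [not_le] at hcon
  have hinf : ℵ₀ ≤ Order.succ l := hl.trans (Order.le_succ l)
  have hcard : #(X → C) ≤ 2 ^ (Order.succ l) := by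
    calc #(X → C) = l ^ (Order.succ l) := by simp [hX, hC]
      _ ≤ (2 ^ l) ^ (Order.succ l) := Cardinal.power_le_power_right (cantor l).le
      _ = 2 ^ (l * Order.succ l) := by rw [power_mul]
      _ = 2 ^ (Order.succ l) := by
          rw [mul_eq_right hinf (Order.le_succ l) (aleph0_pos.trans_le hl).ne']
  have hbig : ℵ₀ ≤ (2 : Cardinal.{0}) ^ (Order.succ l) := hinf.trans (cantor _).le
  have hreg : (Order.succ ((2 : Cardinal.{0}) ^ (Order.succ l))).IsRegular := isRegular_succ hbig
  obtain ⟨g, hg⟩ := infinite_pigeonhole_card (fun i : Q => f i)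
    (Order.succ ((2 : Cardinal.{0}) ^ (Order.succ l))) (Order.succ_le_of_lt hcon)
    (hbig.trans (Order.le_succ _)) (by
      rw [hreg.cof_ord]
      exact hcard.trans_lt (Order.lt_succ _))
  have hlfib : l ≤ #((fun i : Q => f i) ⁻¹' {g}) :=
    ((Order.le_succ l).trans ((cantor _).le.trans (Order.le_succ _))).trans hg
  obtain ⟨R, hRsub, hR⟩ := (le_mk_iff_exists_subset).mp hlfib
  have hRne : R.Nonempty := by
    rw [← nonempty_coe_sort, ← mk_ne_zero_iff, hR]
    exact (aleph0_pos.trans_le hl).ne'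
  have : Infinite C := by
    rw [infinite_iff, hC]
    exact hl
  obtain ⟨c, c', hcc⟩ := exists_pair_ne C
  have h1 := hf R hR c
  have h2 := hf R hR c'
  have hval : ∀ i ∈ R, f i = g := fun i hi => hRsub hi
  have hcov : (univ : Set X) ⊆ {x | ∀ i ∈ R, f i x ≠ c} ∪ {x | ∀ i ∈ R, f i x ≠ c'} := by
    intro x _
    by_cases hx : g x = c
    · right
      intro i hi
      rw [hval i hi, hx]
      exact hcc
    · left
      intro i hi
      rw [hval i hi]
      exact hx
  have h3 : Order.succ l ≤ l := by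
    calc Order.succ l = #(univ : Set X) := by rw [mk_univ, hX]
      _ ≤ #({x | ∀ i ∈ R, f i x ≠ c} ∪ {x | ∀ i ∈ R, f i x ≠ c'} : Set X) :=
          mk_le_mk_of_subset hcov
      _ ≤ #({x | ∀ i ∈ R, f i x ≠ c} : Set X) + #({x | ∀ i ∈ R, f i x ≠ c'} : Set X) :=
          mk_union_le _ _
      _ ≤ l + l := add_le_add (Order.lt_succ_iff.mp h1) (Order.lt_succ_iff.mp h2)
      _ = l := add_eq_self hl
  exact absurd h3 (not_le.mpr (Order.lt_succ l))

theorem backward {l : Cardinal.{0}} (hl : ℵ₀ ≤ l) (h2 : (2 : Cardinal.{0}) ^ l = Order.succ l)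
    (q : Cardinal.{0})
    (h : ∃ (X P Q : Type), #X = Order.succ l ∧ #P = l ∧ #Q = q ∧
      ∃ f : Q → X → P,
        ∀ R : Set Q, #R = l → ∀ c : P, #{x : X // ∀ i ∈ R, f i x ≠ c} < Order.succ l) :
    ∃ (X P Q : Type), #X = Order.succ l ∧ #P = Order.succ l ∧ #Q = q ∧
      ∃ f : Q → X → P, (∀ i : Q, Function.Surjective (f i)) ∧
        ∀ R : Set Q, #R = l → ∀ c : Q → P, #{x : X // ∀ i ∈ R, f i x ≠ c i} < Order.succ l := by
  classical
  obtain ⟨X, C, Q, hX, hC, hQ, f, hf⟩ := h
  have hOne : #(Ord l) ≠ 0 := by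
    rw [mk_Ord]
    exact (Order.succ_ne_bot l)
  have : Nonempty (Ord l) := mk_ne_zero_iff.mp hOne
  have : Inhabited (Ord l) := ⟨Classical.arbitrary _⟩
  have : Nonempty C := by
    rw [← mk_ne_zero_iff, hC]
    exact (aleph0_pos.trans_le hl).ne'
  rcases lt_or_ge q l with hql | hql
  · refine ⟨Ord l, Ord l, Q, mk_Ord l, mk_Ord l, hQ, fun _ x => x, fun _ x => ⟨x, rfl⟩, ?_⟩
    intro R hR
    exfalso
    have : l ≤ q := by
      rw [← hR, ← hQ]
      exact mk_set_le R
    exact absurd this (not_le.mpr hql)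
  -- branches
  have hq2 : #Q ≤ #(Ord l → Bool) := by
    refine (small_q hl hX hC f hf).trans (le_of_eq ?_)
    simp
  obtain ⟨r⟩ := (Cardinal.le_def _ _).mp hq2
  -- the codes seen at a point
  have hK := mk_Code hl h2 C hC
  rw [← mk_Ord l] at hK
  obtain ⟨io⟩ := (Cardinal.le_def _ _).mp hK
  obtain ⟨ph⟩ : Nonempty (X ≃ Ord l) := Cardinal.eq.mp (hX.trans (mk_Ord l).symm)
  have : Nonempty (Code l C) := ⟨⟨default, fun _ => (fun _ => true, default)⟩⟩
  have hg : ∀ y : Ord l, ∃ g : C → Code l C, ∀ k, io k < y → k ∈ range g := by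
    intro y
    have hle : #{k : Code l C // io k < y} ≤ #C := by
      rw [hC]
      refine le_trans ?_ (mk_Iio_le y)
      refine mk_le_of_injective (f := fun k : {k : Code l C // io k < y} =>
        (⟨io k.1, k.2⟩ : Iio y)) ?_
      intro a b hab
      have := congrArg Subtype.val hab
      exact Subtype.ext (io.injective this)
    obtain ⟨j⟩ := (Cardinal.le_def _ _).mp hle
    refine ⟨fun c => if hc : ∃ k, j k = c then (hc.choose : Code l C) else Classical.arbitrary _,
      ?_⟩
    intro k hk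
    have hex : ∃ k', j k' = j ⟨k, hk⟩ := ⟨_, rfl⟩
    refine ⟨j ⟨k, hk⟩, ?_⟩
    simp only
    rw [dif_pos hex]
    have := j.injective hex.choose_spec
    rw [this]
  choose g hgs using hg
  let F : Q → X → Ord l := fun i x => decode r (g (ph x) (f i x)) i
  have hF : ∀ R : Set Q, #R = l → ∀ c : Q → Ord l,
      #{x : X // ∀ i ∈ R, F i x ≠ c i} < Order.succ l := by
    intro R hR c
    obtain ⟨k, hk⟩ := decode_cover hl hC (fun i => r i) r.injective R hR c
    have hsub : {x : X | ∀ i ∈ R, F i x ≠ c i} ⊆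
        {x : X | ph x ≤ io k} ∪ ⋃ a : C, {x : X | ∀ i ∈ R, f i x ≠ a} := by
      intro x hx
      by_cases hxk : ph x ≤ io k
      · exact Or.inl hxk
      · right
        rw [not_le] at hxk
        obtain ⟨a, ha⟩ := hgs (ph x) k hxk
        refine mem_iUnion.mpr ⟨a, ?_⟩
        intro i hi hfa
        refine hx i hi ?_
        simp only [F]
        rw [hfa, ha]
        exact hk i hi
    refine Order.lt_succ_iff.mpr ?_
    calc #{x : X // ∀ i ∈ R, F i x ≠ c i} = #({x : X | ∀ i ∈ R, F i x ≠ c i} : Set X) := rfl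
      _ ≤ #({x : X | ph x ≤ io k} ∪ ⋃ a : C, {x : X | ∀ i ∈ R, f i x ≠ a} : Set X) :=
          mk_le_mk_of_subset hsub
      _ ≤ #({x : X | ph x ≤ io k} : Set X) +
            #(⋃ a : C, {x : X | ∀ i ∈ R, f i x ≠ a} : Set X) := mk_union_le _ _
      _ ≤ l + l := by
          refine add_le_add ?_ ?_
          · refine le_trans ?_ (mk_Iic_le hl (io k))
            refine mk_le_of_injective (f := fun x : ({x : X | ph x ≤ io k} : Set X) =>
              (⟨ph x.1, x.2⟩ : Iic (io k))) ?_
            intro a b hab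
            have := congrArg Subtype.val hab
            exact Subtype.ext (ph.injective this)
          · calc #(⋃ a : C, {x : X | ∀ i ∈ R, f i x ≠ a} : Set X)
                ≤ Cardinal.sum fun a : C => #({x : X | ∀ i ∈ R, f i x ≠ a} : Set X) :=
                  mk_iUnion_le_sum_mk
              _ ≤ Cardinal.sum fun _ : C => l :=
                  sum_le_sum _ _ fun a => Order.lt_succ_iff.mp (hf R hR a)
              _ = #C * l := by simp
              _ = l := by rw [hC, mul_eq_self hl]
      _ = l := add_eq_self hl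
  -- remove the few non surjective ones
  let Bad : Set Q := {i | ¬ Function.Surjective (F i)}
  have hBad : #Bad < l := by
    by_contra hcon
    rw [not_lt] at hcon
    obtain ⟨R, hRsub, hR⟩ := (le_mk_iff_exists_subset).mp hcon
    have hmiss : ∀ i : Q, ∃ c : Ord l, i ∈ Bad → ∀ x, F i x ≠ c := by
      intro i
      by_cases hi : i ∈ Bad
      · have hi' : ¬ Function.Surjective (F i) := hi
        unfold Function.Surjective at hi'
        push Not at hi'
        obtain ⟨c, hc⟩ := hi'
        exact ⟨c, fun _ => hc⟩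
      · exact ⟨default, fun h => absurd h hi⟩
    choose c hc using hmiss
    have h1 := hF R hR c
    have h2' : #{x : X // ∀ i ∈ R, F i x ≠ c i} = Order.succ l := by
      rw [← hX, ← mk_univ (α := X)]
      refine congrArg (fun s : Set X => #s) ?_
      ext x
      simp only [mem_univ, iff_true]
      exact fun i hi => hc i (hRsub hi) x
    exact absurd h1 (by rw [h2']; exact lt_irrefl _)
  have hQinf : Infinite Q := by
    rw [infinite_iff, hQ]
    exact hl.trans hql
  have hQ' : #(Badᶜ : Set Q) = q := by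
    rw [mk_compl_of_infinite Bad (by rw [hQ]; exact hBad.trans_le hql), hQ]
  refine ⟨X, Ord l, (Badᶜ : Set Q), hX, mk_Ord l, hQ', fun i x => F i.1 x, ?_, ?_⟩
  · intro i
    by_contra hi
    exact i.2 hi
  · intro R hR c
    have hR' : #(Subtype.val '' R : Set Q) = l := by
      rw [mk_image_eq Subtype.val_injective, hR]
    let c' : Q → Ord l := fun i => if hi : i ∈ Badᶜ then c ⟨i, hi⟩ else default
    refine lt_of_le_of_lt ?_ (hF _ hR' c')
    refine mk_subtype_mono ?_
    intro x hx i hi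
    obtain ⟨i', hi', rfl⟩ := hi
    have := hx i' hi'
    simp only [c']
    rw [dif_pos i'.2]
    exact this

/-- If `2 ^ ℵ_κ = ℵ_(κ+1)` then, for every `q`, the decomposition relation of Q1 with `ℵ_(κ+1)`
nonempty pieces and arbitrary picks is equivalent to the relation with only `ℵ_κ` (possibly empty)
pieces in which only equally indexed pieces are picked. -/
theorem result (κ : Ordinal.{0}) (hκ : (2 : Cardinal.{0}) ^ aleph κ = aleph (κ + 1))
    (q : Cardinal.{0}) :
    (∃ (X P Q : Type), #X = aleph (κ + 1) ∧ #P = aleph (κ + 1) ∧ #Q = q ∧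
      ∃ f : Q → X → P, (∀ i : Q, Function.Surjective (f i)) ∧
        ∀ R : Set Q, #R = aleph κ → ∀ c : Q → P,
          #{x : X // ∀ i ∈ R, f i x ≠ c i} < aleph (κ + 1)) ↔
    (∃ (X P Q : Type), #X = aleph (κ + 1) ∧ #P = aleph κ ∧ #Q = q ∧
      ∃ f : Q → X → P,
        ∀ R : Set Q, #R = aleph κ → ∀ c : P,
          #{x : X // ∀ i ∈ R, f i x ≠ c} < aleph (κ + 1)) := by
  have hs : aleph (κ + 1) = Order.succ (aleph κ) := by
    simp
  rw [hs] at hκ ⊢
  exact ⟨forward (aleph0_le_aleph κ) q, backward (aleph0_le_aleph κ) hκ q⟩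

end Pool.Agent.Results.MP_6359ae_lc.EqualPicks
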